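import Pool.Agent.R775.SSE2.Step

/-!
# Invariants of shift equivalences over `ℤ` between the matrices `Bz2`
-/

set_option autoImplicit false

namespace Pool.Agent.R775.SSE.Two

open Matrix

/-- the structure of an intertwiner -/
theorem intertwiner2 {e f x y : ℤ} (hx : x ≠ 0) (hy : y ≠ f) {R : Matrix (Fin 2) (Fin 2) ℤ}
    (h : Bz2 e f x * R = R * Bz2 e f y) :
    ∃ r s : ℤ, R *ᵥ ![1, -1] = r • ![1, -1] ∧ ![1, 1] ᵥ* R = s • ![1, 1] ∧
      s * x = r * y + f * R 0 1 := by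
  have h00 := congrFun (congrFun h 0) 0
  have h01 := congrFun (congrFun h 0) 1
  have h10 := congrFun (congrFun h 1) 0
  have h11 := congrFun (congrFun h 1) 1
  simp [Matrix.mul_apply, Fin.sum_univ_two, Bz2] at h00 h01 h10 h11
  have d1 : R 0 0 - R 0 1 + (R 1 0 - R 1 1) = 0 := by
    have : x * (R 0 0 - R 0 1 + (R 1 0 - R 1 1)) = 0 := by linear_combination h00 - h01
    exact (mul_eq_zero.mp this).resolve_left hx
  have d2 : R 0 0 + R 1 0 = R 0 1 + R 1 1 := by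
    have : (f - y) * (R 0 0 + R 1 0 - (R 0 1 + R 1 1)) = 0 := by
      linear_combination h00 + h10
    have h0 := (mul_eq_zero.mp this).resolve_left (sub_ne_zero.mpr hy.symm)
    linarith
  refine ⟨R 0 0 - R 0 1, R 0 1 + R 1 1, ?_, ?_, ?_⟩
  · ext i; fin_cases i <;> simp [Matrix.mulVec, dotProduct, Fin.sum_univ_two]
    · ring
    · linear_combination d1
  · ext i; fin_cases i <;> simp [Matrix.vecMul, dotProduct, Fin.sum_univ_two]
    · linear_combination d2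
  · linear_combination h01

theorem Bz2_pow_right (e f x : ℤ) (l : ℕ) :
    Bz2 e f x ^ l *ᵥ ![1, -1] = (e ^ l) • ![1, -1] := by
  induction l with
  | zero => simp
  | succ l ih =>
    rw [pow_succ, ← Matrix.mulVec_mulVec]
    have : Bz2 e f x *ᵥ ![1, -1] = e • ![1, -1] := by
      ext i; fin_cases i <;> simp [Bz2, Matrix.mulVec, dotProduct, Fin.sum_univ_two] <;> ring
    rw [this, Matrix.mulVec_smul, ih, smul_smul, pow_succ, mul_comm]

theorem Bz2_pow_left (e f x : ℤ) (l : ℕ) :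
    ![1, 1] ᵥ* Bz2 e f x ^ l = ((f + e) ^ l) • ![1, 1] := by
  induction l with
  | zero => simp
  | succ l ih =>
    rw [pow_succ', ← Matrix.vecMul_vecMul]
    have : ![1, 1] ᵥ* Bz2 e f x = (f + e) • ![1, 1] := by
      ext i; fin_cases i <;> simp [Bz2, Matrix.vecMul, dotProduct, Fin.sum_univ_two] <;> ring
    rw [this, Matrix.smul_vecMul, ih, smul_smul, pow_succ, mul_comm]

/-- a shift equivalence over `ℤ` of lag `l` gives a divisor of `λ ^ l` -/
theorem mod_of_seZ2 {e : ℤ} {f x y : ℕ} (he : e = 1 ∨ e = -1) (hx : 1 ≤ x) (hxf : x < f)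
    (hy : 1 ≤ y) (hyf : y < f) {l : ℕ} {R S : Matrix (Fin 2) (Fin 2) ℤ}
    (h : IsSE ℤ (Bz2 e f x) (Bz2 e f y) l R S) :
    ∃ s : ℕ, (s : ℤ) ∣ ((f : ℤ) + e) ^ l ∧
      ((s * x : ℤ) ≡ y [ZMOD f] ∨ (s * x : ℤ) ≡ -y [ZMOD f]) := by
  obtain ⟨h1, h2, h3, h4⟩ := h
  obtain ⟨r, s, e1, e2, e3⟩ := intertwiner2 (by exact_mod_cast (by omega : x ≠ 0))
    (by exact_mod_cast (by omega : y ≠ f)) h3
  obtain ⟨r', s', f1, f2, -⟩ := intertwiner2 (by exact_mod_cast (by omega : y ≠ 0))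
    (by exact_mod_cast (by omega : x ≠ f)) h4.symm
  have g1 : r * r' = e ^ l := by
    have g := Bz2_pow_right e f x l
    rw [h1, ← Matrix.mulVec_mulVec, f1, Matrix.mulVec_smul, e1, smul_smul] at g
    have := congrFun g 0
    simp at this
    linarith
  have g2 : s * s' = ((f : ℤ) + e) ^ l := by
    have g := Bz2_pow_left e f x l
    rw [h1, ← Matrix.vecMul_vecMul, e2, Matrix.smul_vecMul, f2, smul_smul] at g
    have := congrFun g 0
    simp at this
    linarith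
  have hr : r = 1 ∨ r = -1 := by
    have h5 : IsUnit (e ^ l) := by
      apply IsUnit.pow
      rcases he with he | he
      · rw [he]; exact isUnit_one
      · rw [he]; exact isUnit_one.neg
    rw [← g1] at h5
    exact Int.isUnit_iff.mp (isUnit_of_mul_isUnit_left h5)
  have e4 : s * x ≡ r * y [ZMOD f] := by
    rw [Int.modEq_iff_dvd]
    exact ⟨-R 0 1, by linarith⟩
  refine ⟨s.natAbs, ?_, ?_⟩
  · rw [Int.natAbs_dvd]
    exact ⟨s', g2.symm⟩
  · rcases Int.natAbs_eq s with hs | hs <;> rcases hr with hr | hr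
    · left; rw [hs, hr] at e4; simpa using e4
    · right; rw [hs, hr] at e4; simpa using e4
    · right
      rw [hs, hr] at e4
      have := e4.neg
      simpa using this
    · left
      rw [hs, hr] at e4
      have := e4.neg
      simpa using this

/-- The family: shift equivalence over `ℤ` with lag `l` is the same as a chain of `l` elementary
equivalences. -/
theorem family {e : ℤ} {f x y l : ℕ} (he : e = 1 ∨ e = -1) (hx : 1 ≤ x) (hxf : x < f)
    (hy : 1 ≤ y) (hyf : y < f) (hl : 1 ≤ l) :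
    List.TFAE [Chain2 l (Bm e f x) (Bm e f y), Chain l ⟨2, Bm e f x⟩ ⟨2, Bm e f y⟩,
      ∃ R S : Matrix (Fin 2) (Fin 2) ℕ, IsSE ℕ (Bm e f x) (Bm e f y) l R S,
      ∃ R S : Matrix (Fin 2) (Fin 2) ℤ, IsSE ℤ (toZ (Bm e f x)) (toZ (Bm e f y)) l R S,
      ∃ s : ℕ, (s : ℤ) ∣ ((f : ℤ) + e) ^ l ∧
        ((s * x : ℤ) ≡ y [ZMOD f] ∨ (s * x : ℤ) ≡ -y [ZMOD f])] := by
  tfae_have 1 → 2 := Chain2.chain
  tfae_have 2 → 3 := fun h => h.isSE
  tfae_have 3 → 4 := fun ⟨R, S, h⟩ => ⟨_, _, isSE_toZ h⟩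
  tfae_have 4 → 5 := by
    rintro ⟨R, S, h⟩
    rw [toZ_Bm he hx hxf, toZ_Bm he hy hyf] at h
    exact mod_of_seZ2 he hx hxf hy hyf h
  tfae_have 5 → 1 := by
    rintro ⟨s, h1, h2⟩
    obtain ⟨k, rfl⟩ : ∃ k, l = k + 1 := ⟨l - 1, by omega⟩
    exact chain_of_mod he k x y s hx hxf hy hyf h1 h2
  tfae_finish

/-- transitivity of shift equivalence over `ℤ` -/
theorem isSE_trans {n m k : ℕ} {A : Matrix (Fin n) (Fin n) ℤ} {B : Matrix (Fin m) (Fin m) ℤ}
    {C : Matrix (Fin k) (Fin k) ℤ} {l l' : ℕ} {R : Matrix (Fin n) (Fin m) ℤ}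
    {S : Matrix (Fin m) (Fin n) ℤ} {R' : Matrix (Fin m) (Fin k) ℤ} {S' : Matrix (Fin k) (Fin m) ℤ}
    (h : IsSE ℤ A B l R S) (h' : IsSE ℤ B C l' R' S') : IsSE ℤ A C (l + l') (R * R') (S' * S) := by
  obtain ⟨h1, h2, h3, h4⟩ := h
  obtain ⟨g1, g2, g3, g4⟩ := h'
  have p1 : ∀ j, A ^ j * R = R * B ^ j := by
    intro j
    induction j with
    | zero => simp
    | succ j ih => rw [pow_succ, pow_succ, Matrix.mul_assoc, h3, ← Matrix.mul_assoc, ih,
        Matrix.mul_assoc]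
  have p2 : ∀ j, C ^ j * S' = S' * B ^ j := by
    intro j
    induction j with
    | zero => simp
    | succ j ih => rw [pow_succ, pow_succ, Matrix.mul_assoc, ← g4, ← Matrix.mul_assoc, ih,
        Matrix.mul_assoc]
  refine ⟨?_, ?_, ?_, ?_⟩
  · calc A ^ (l + l') = A ^ l' * A ^ l := by rw [← pow_add, add_comm]
      _ = A ^ l' * R * S := by rw [h1, Matrix.mul_assoc]
      _ = R * (R' * S') * S := by rw [p1, g1]
      _ = R * R' * (S' * S) := by simp only [Matrix.mul_assoc]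
  · calc C ^ (l + l') = C ^ l * C ^ l' := by rw [← pow_add]
      _ = C ^ l * S' * R' := by rw [g2, Matrix.mul_assoc]
      _ = S' * (S * R) * R' := by rw [p2, h2]
      _ = S' * S * (R * R') := by simp only [Matrix.mul_assoc]
  · rw [← Matrix.mul_assoc, h3, Matrix.mul_assoc, g3, Matrix.mul_assoc]
  · rw [Matrix.mul_assoc, h4, ← Matrix.mul_assoc, g4, Matrix.mul_assoc]

theorem isSE_symm {n m : ℕ} {A : Matrix (Fin n) (Fin n) ℤ} {B : Matrix (Fin m) (Fin m) ℤ}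
    {l : ℕ} {R : Matrix (Fin n) (Fin m) ℤ} {S : Matrix (Fin m) (Fin n) ℤ}
    (h : IsSE ℤ A B l R S) : IsSE ℤ B A l S R :=
  ⟨h.2.1, h.1, h.2.2.2.symm, h.2.2.1.symm⟩

theorem seZ_trans {n m k : ℕ} {A : Matrix (Fin n) (Fin n) ℤ} {B : Matrix (Fin m) (Fin m) ℤ}
    {C : Matrix (Fin k) (Fin k) ℤ} (h : SE ℤ A B) (h' : SE ℤ B C) : SE ℤ A C := by
  obtain ⟨l, hl, R, S, h⟩ := h
  obtain ⟨l', _, R', S', h'⟩ := h'
  exact ⟨l + l', by omega, _, _, isSE_trans h h'⟩

theorem seZ_symm {n m : ℕ} {A : Matrix (Fin n) (Fin n) ℤ} {B : Matrix (Fin m) (Fin m) ℤ}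
    (h : SE ℤ A B) : SE ℤ B A := by
  obtain ⟨l, hl, R, S, h⟩ := h
  exact ⟨l, hl, _, _, isSE_symm h⟩

end Pool.Agent.R775.SSE.Two
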