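import Pool.Agent.R775.SSE2.Red

/-!
# The main theorems for the irreducible `2 × 2` matrices with an eigenvalue `±1`
-/

set_option autoImplicit false

namespace Pool.Agent.R775.SSE.Two

open Matrix

/-- `A - e` as a product `u wᵀ` -/
theorem decomp {e : ℤ} (he : e = 1 ∨ e = -1) {A : Matrix (Fin 2) (Fin 2) ℕ} (h01 : 0 < A 0 1)
    (h10 : 0 < A 1 0) (htr : e = 1 → 1 ≤ A 0 0 + A 1 1)
    (h : ((A 0 0 : ℤ) - e) * ((A 1 1 : ℤ) - e) = A 0 1 * A 1 0) :
    ∃ u1 u2 w1 w2 : ℕ, 1 ≤ u1 ∧ 1 ≤ u2 ∧ 1 ≤ w1 ∧ 1 ≤ w2 ∧ Nat.Coprime w1 w2 ∧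
      toZ A = Az e u1 u2 w1 w2 := by
  have hp : (1 : ℤ) ≤ A 0 1 * A 1 0 := by
    exact_mod_cast Nat.one_le_iff_ne_zero.mpr (Nat.mul_pos h01 h10).ne'
  have hpos : 1 ≤ (A 0 0 : ℤ) - e ∧ 1 ≤ (A 1 1 : ℤ) - e := by
    rcases he with he | he
    · subst he
      have h1 := htr rfl
      have a0 : (0 : ℤ) ≤ A 0 0 := by positivity
      have d0 : (0 : ℤ) ≤ A 1 1 := by positivity
      have s0 : (1 : ℤ) ≤ A 0 0 + A 1 1 := by exact_mod_cast h1
      have k : 1 ≤ ((A 0 0 : ℤ) - 1) * ((A 1 1 : ℤ) - 1) := by rw [h]; exact hp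
      constructor
      · by_contra hc
        have h2 : (A 0 0 : ℤ) ≤ 1 := by omega
        rcases (by omega : (A 0 0 : ℤ) = 0 ∨ (A 0 0 : ℤ) = 1) with h3 | h3
        · rw [h3] at k s0; omega
        · rw [h3] at k; simp at k
      · by_contra hc
        have h2 : (A 1 1 : ℤ) ≤ 1 := by omega
        rcases (by omega : (A 1 1 : ℤ) = 0 ∨ (A 1 1 : ℤ) = 1) with h3 | h3
        · rw [h3] at k s0; omega
        · rw [h3] at k; simp at k
    · subst he
      constructor <;> omega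
  obtain ⟨a, ha⟩ : ∃ a : ℕ, (a : ℤ) = (A 0 0 : ℤ) - e := ⟨((A 0 0 : ℤ) - e).toNat, by omega⟩
  obtain ⟨d, hd⟩ : ∃ d : ℕ, (d : ℤ) = (A 1 1 : ℤ) - e := ⟨((A 1 1 : ℤ) - e).toNat, by omega⟩
  rw [← ha, ← hd] at h
  obtain ⟨u1, u2, w1, w2, k1, k2, k3, k4, k5, k6, k7, k8, k9⟩ :=
    exists_uw (a := a) (b := A 0 1) (c := A 1 0) (d := d) (by omega) h01 h10 (by omega)
      (by exact_mod_cast h)
  refine ⟨u1, u2, w1, w2, k1, k2, k3, k4, k5, ?_⟩
  have e1 : (u1 * w1 : ℤ) = (A 0 0 : ℤ) - e := by rw [← ha, k6]; push_cast; rfl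
  have e2 : (u2 * w2 : ℤ) = (A 1 1 : ℤ) - e := by rw [← hd, k9]; push_cast; rfl
  have e3 : (A 0 1 : ℤ) = u1 * w2 := by rw [k7]; push_cast; rfl
  have e4 : (A 1 0 : ℤ) = u2 * w1 := by rw [k8]; push_cast; rfl
  ext i j
  fin_cases i <;> fin_cases j <;> simp [toZ, Az]
  · linarith
  · exact e3
  · exact e4
  · linarith

/-- shift equivalence over `ℤ` preserves the trace and the determinant of nonsingular `2 × 2`
matrices -/
theorem invar {A B : Matrix (Fin 2) (Fin 2) ℤ} (hA : A.det ≠ 0) (h : SE ℤ A B) :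
    A.trace = B.trace ∧ A.det = B.det := by
  obtain ⟨l, _, R, S, h1, h2, h3, h4⟩ := h
  have hR : R.det ≠ 0 := by
    intro h0
    have h5 := congrArg Matrix.det h1
    rw [Matrix.det_pow, Matrix.det_mul, h0, zero_mul] at h5
    exact hA ((pow_eq_zero_iff (by omega)).mp h5)
  constructor
  · have h5 : (R.adjugate * (A * R)).trace = (R.adjugate * (R * B)).trace := by rw [h3]
    rw [← Matrix.mul_assoc R.adjugate R B, Matrix.adjugate_mul, Matrix.trace_mul_comm,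
      Matrix.mul_assoc, Matrix.mul_adjugate] at h5
    simp only [Matrix.mul_smul, Matrix.smul_mul, Matrix.mul_one, Matrix.one_mul,
      Matrix.trace_smul, smul_eq_mul] at h5
    exact mul_left_cancel₀ hR h5
  · have h5 := congrArg Matrix.det h3
    rw [Matrix.det_mul, Matrix.det_mul, mul_comm] at h5
    exact mul_left_cancel₀ hR h5

/-- reduction of a matrix with an eigenvalue `e` -/
theorem to_family {e : ℤ} (he : e = 1 ∨ e = -1) {A : Matrix (Fin 2) (Fin 2) ℕ} (h01 : 0 < A 0 1)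
    (h10 : 0 < A 1 0) (htr : e = 1 → 1 ≤ A 0 0 + A 1 1)
    (h : ((A 0 0 : ℤ) - e) * ((A 1 1 : ℤ) - e) = A 0 1 * A 1 0) :
    ∃ f x k : ℕ, 1 ≤ x ∧ x < f ∧ (f : ℤ) = A 0 0 + A 1 1 - 2 * e ∧ Chain2 k A (Bm e f x) := by
  obtain ⟨u1, u2, w1, w2, hu1, hu2, hw1, hw2, hco, hA⟩ := decomp he h01 h10 htr h
  obtain ⟨x, hx, hxf, e1, e2⟩ := exists_res hu1 hu2 hw1 hw2 hco rfl
  obtain ⟨k, _, hk⟩ := reduce he (w1 + w2 - 2) u1 u2 w1 w2 _ x hu1 hu2 hw1 hw2 hco (by omega) rfl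
    hx hxf e1 e2 A hA
  refine ⟨_, x, k, hx, hxf, ?_, hk⟩
  have g1 := congrFun (congrFun hA 0) 0
  have g2 := congrFun (congrFun hA 1) 1
  simp [toZ, Az] at g1 g2
  push_cast
  linarith

theorem seZ_of_chain2 {k : ℕ} {A B : Matrix (Fin 2) (Fin 2) ℕ} (h : Chain2 k A B) :
    SE ℤ (toZ A) (toZ B) := seZ_of_seN (seN_of_sse ⟨k, h.chain⟩)

theorem det_eq {e : ℤ} (he : e = 1 ∨ e = -1) {A : Matrix (Fin 2) (Fin 2) ℕ} 
    (h : ((A 0 0 : ℤ) - e) * ((A 1 1 : ℤ) - e) = A 0 1 * A 1 0) :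
    (toZ A).det = e * (A 0 0 + A 1 1) - 1 := by
  rw [Matrix.det_fin_two]
  simp only [toZ, Matrix.map_apply]
  have : e * e = 1 := by rcases he with he | he <;> rw [he] <;> norm_num
  linear_combination h - this

theorem sse_of_seZ_aux {e : ℤ} (he : e = 1 ∨ e = -1) {A B : Matrix (Fin 2) (Fin 2) ℕ}
    (hA01 : 0 < A 0 1) (hA10 : 0 < A 1 0) (hB01 : 0 < B 0 1) (hB10 : 0 < B 1 0)
    (htr : e = 1 → 1 ≤ A 0 0 + A 1 1)
    (hA : ((A 0 0 : ℤ) - e) * ((A 1 1 : ℤ) - e) = A 0 1 * A 1 0)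
    (h : SE ℤ (toZ A) (toZ B)) : ∃ k, Chain2 k A B := by
  have hdet := det_eq he hA
  have hp : (1 : ℤ) ≤ A 0 1 * A 1 0 := by
    exact_mod_cast Nat.one_le_iff_ne_zero.mpr (Nat.mul_pos hA01 hA10).ne'
  have hdet0 : (toZ A).det ≠ 0 := by
    rw [hdet]
    intro h0
    rcases he with he | he
    · subst he
      have a0 : (0 : ℤ) ≤ A 0 0 := by positivity
      have d0 : (0 : ℤ) ≤ A 1 1 := by positivity
      have s0 : (A 1 1 : ℤ) = 1 - A 0 0 := by linarith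
      rw [s0] at hA
      nlinarith
    · subst he
      have a0 : (0 : ℤ) ≤ A 0 0 := by positivity
      have d0 : (0 : ℤ) ≤ A 1 1 := by positivity
      linarith
  obtain ⟨i1, i2⟩ := invar hdet0 h
  have tA : (toZ A).trace = A 0 0 + A 1 1 := by
    rw [Matrix.trace_fin_two]; simp [toZ]
  have tB : (toZ B).trace = B 0 0 + B 1 1 := by
    rw [Matrix.trace_fin_two]; simp [toZ]
  rw [tA, tB] at i1
  have hB : ((B 0 0 : ℤ) - e) * ((B 1 1 : ℤ) - e) = B 0 1 * B 1 0 := by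
    have d1 : (toZ A).det = A 0 0 * A 1 1 - A 0 1 * A 1 0 := by
      rw [Matrix.det_fin_two]; simp [toZ]
    have d2 : (toZ B).det = B 0 0 * B 1 1 - B 0 1 * B 1 0 := by
      rw [Matrix.det_fin_two]; simp [toZ]
    rw [d1, d2] at i2
    linear_combination hA - i2 + e * i1
  obtain ⟨f, x, k, hx, hxf, hf, hc⟩ := to_family he hA01 hA10 htr hA
  obtain ⟨f', y, k', hy, hyf, hf', hc'⟩ := to_family he hB01 hB10
    (fun h1 => by have := htr h1; omega) hB
  have hff : f' = f := by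
    have : (f' : ℤ) = f := by rw [hf, hf', i1]
    exact_mod_cast this
  subst hff
  have h5 : SE ℤ (toZ (Bm e f' x)) (toZ (Bm e f' y)) :=
    seZ_trans (seZ_symm (seZ_of_chain2 hc)) (seZ_trans h (seZ_of_chain2 hc'))
  obtain ⟨l, hl, R, S, h6⟩ := h5
  have h7 : Chain2 l (Bm e f' x) (Bm e f' y) := by
    have h8 := (family he hx hxf hy hyf hl).out 0 3
    exact h8.mpr ⟨R, S, h6⟩
  exact ⟨_, (hc.trans h7).trans hc'.symm⟩

theorem sse_of_seZ {A B : Matrix (Fin 2) (Fin 2) ℕ}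
    (hA01 : 0 < A 0 1) (hA10 : 0 < A 1 0) (hB01 : 0 < B 0 1) (hB10 : 0 < B 1 0)
    (hA : (toZ A - 1).det = 0 ∨ (toZ A + 1).det = 0) (h : SE ℤ (toZ A) (toZ B)) :
    ∃ k, Chain2 k A B := by
  have hp : (1 : ℤ) ≤ A 0 1 * A 1 0 := by
    exact_mod_cast Nat.one_le_iff_ne_zero.mpr (Nat.mul_pos hA01 hA10).ne'
  rcases hA with hA | hA
  · rw [Matrix.det_fin_two] at hA
    simp [toZ] at hA
    by_cases htr : 1 ≤ A 0 0 + A 1 1
    · exact sse_of_seZ_aux (Or.inl rfl) hA01 hA10 hB01 hB10 (fun _ => htr) (by linarith) h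
    · have h0 : A 0 0 = 0 := by omega
      have h1 : A 1 1 = 0 := by omega
      refine sse_of_seZ_aux (Or.inr rfl) hA01 hA10 hB01 hB10 (fun hc => by norm_num at hc) ?_ h
      rw [h0, h1] at hA ⊢
      push_cast at hA ⊢
      linarith
  · rw [Matrix.det_fin_two] at hA
    simp [toZ] at hA
    refine sse_of_seZ_aux (Or.inr rfl) hA01 hA10 hB01 hB10 (fun hc => by norm_num at hc) ?_ h
    linarith

/-- unbounded lag -/
theorem lag_two {e : ℤ} (he : e = 1 ∨ e = -1) {m q f : ℕ} (hm : 1 ≤ m) (hq : q.Prime)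
    (hmq : 2 ^ (2 * m) < 2 * q) (hf : (f : ℤ) = 2 * q - e) :
    Chain2 m (Bm e f 1) (Bm e f (2 ^ m)) ∧
    ∀ (l : ℕ) (R S : Matrix (Fin 2) (Fin 2) ℤ),
      IsSE ℤ (toZ (Bm e f 1)) (toZ (Bm e f (2 ^ m))) l R S → m ≤ l := by
  have h2m : 2 ^ m ≤ 2 ^ (2 * m) := Nat.pow_le_pow_right (by norm_num) (by omega)
  have hf1 : 2 ^ (2 * m) < f := by
    have h3 : 2 ^ (2 * m) = 2 * 2 ^ (2 * m - 1) := by
      rw [← pow_succ']; congr 1; omega
    rcases he with he | he <;> rw [he] at hf <;> omega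
  have h1f : 1 < f := lt_of_le_of_lt (Nat.one_le_two_pow) hf1
  have hfe : (f : ℤ) + e = 2 * q := by rw [hf]; ring
  constructor
  · obtain ⟨k, rfl⟩ : ∃ k, m = k + 1 := ⟨m - 1, by omega⟩
    refine chain_of_mod he k 1 _ (2 ^ (k + 1)) le_rfl h1f Nat.one_le_two_pow (by omega) ?_ ?_
    · rw [hfe, mul_pow]
      push_cast
      exact Dvd.intro _ rfl
    · left
      push_cast
      rw [mul_one]
  · intro l R S h
    by_contra hlt
    push Not at hlt
    rw [toZ_Bm he le_rfl h1f, toZ_Bm he Nat.one_le_two_pow (by omega)] at h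
    obtain ⟨s, hs, h1⟩ := mod_of_seZ2 (l := l) he le_rfl h1f Nat.one_le_two_pow (by omega) h
    rw [hfe] at hs
    have hs' : s ∣ 2 ^ l * q ^ l := by
      rw [← mul_pow]
      exact_mod_cast hs
    obtain ⟨a, b, ha, hb, hab⟩ := (Nat.dvd_mul).mp hs'
    obtain ⟨i, hi, rfl⟩ := (Nat.dvd_prime_pow Nat.prime_two).mp ha
    obtain ⟨j, hj, rfl⟩ := (Nat.dvd_prime_pow hq).mp hb
    -- multiply by `2 ^ j`
    have h3 : ((2 : ℤ) ^ j * s) ≡ 2 ^ i * e ^ j [ZMOD f] := by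
      rw [← hab]
      push_cast
      have h4 : (2 * q : ℤ) ≡ e [ZMOD f] := by
        rw [← hfe, Int.modEq_iff_dvd]
        exact ⟨-1, by ring⟩
      have := (h4.pow j).mul_left (2 ^ i)
      rwa [mul_pow, show (2 : ℤ) ^ i * (2 ^ j * q ^ j) = 2 ^ j * (2 ^ i * q ^ j) by ring] at this
    have hej : e ^ j = 1 ∨ e ^ j = -1 := by
      rcases he with he | he
      · left; rw [he]; simp
      · rw [he]; exact neg_one_pow_eq_or ℤ j
    have h5 : (2 : ℤ) ^ i ≡ 2 ^ (j + m) [ZMOD f] ∨ (2 : ℤ) ^ i ≡ -2 ^ (j + m) [ZMOD f] := by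
      have h6 : ((2 : ℤ) ^ j * s ≡ 2 ^ (j + m) [ZMOD f]) ∨
          ((2 : ℤ) ^ j * s ≡ -2 ^ (j + m) [ZMOD f]) := by
        rcases h1 with h1 | h1
        · left
          have := h1.mul_left (2 ^ j)
          push_cast at this
          rwa [mul_one, ← pow_add] at this
        · right
          have := h1.mul_left (2 ^ j)
          push_cast at this
          rwa [mul_one, mul_neg, ← pow_add] at this
      rcases hej with g | g <;> rw [g] at h3 <;> rcases h6 with h6 | h6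
      · left; simpa using h3.symm.trans h6
      · right; simpa using h3.symm.trans h6
      · right
        have := (h3.symm.trans h6).neg
        simpa using this
      · left
        have := (h3.symm.trans h6).neg
        simpa using this
    have b1 : (2 : ℤ) ^ (j + m) ≤ 2 ^ (2 * m - 1) := pow_le_pow_right₀ (by norm_num) (by omega)
    have b2 : (2 : ℤ) ^ i ≤ 2 ^ (m - 1) := pow_le_pow_right₀ (by norm_num) (by omega)
    have b3 : (2 : ℤ) ^ (m - 1) ≤ 2 ^ (2 * m - 1) := pow_le_pow_right₀ (by norm_num) (by omega)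
    have b4 : (2 : ℤ) ^ (2 * m) = 2 * 2 ^ (2 * m - 1) := by
      rw [← pow_succ']; congr 1; omega
    have b5 : (2 : ℤ) ^ (2 * m) < f := by exact_mod_cast hf1
    have b6 : (2 : ℤ) ^ m ≤ 2 ^ (j + m) := pow_le_pow_right₀ (by norm_num) (by omega)
    have b7 : (2 : ℤ) ^ m = 2 * 2 ^ (m - 1) := by
      rw [← pow_succ']; congr 1; omega
    have b8 : (0 : ℤ) < 2 ^ (m - 1) := by positivity
    have b9 : (0 : ℤ) < 2 ^ i := by positivity
    rcases h5 with h5 | h5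
    · have h6 := Int.eq_zero_of_abs_lt_dvd h5.dvd (by rw [abs_lt]; constructor <;> linarith)
      linarith
    · have h6 := Int.eq_zero_of_abs_lt_dvd h5.dvd (by rw [abs_lt]; constructor <;> linarith)
      linarith

end Pool.Agent.R775.SSE.Two
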