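import Pool.Agent.R775.SSE2.Inv2

/-!
# Reduction of the irreducible `2 × 2` matrices with an eigenvalue `±1` to the family `Bm`
-/

set_option autoImplicit false

namespace Pool.Agent.R775.SSE.Two

open Matrix

theorem exists_nat (M : Matrix (Fin 2) (Fin 2) ℤ) (h : ∀ i j, 0 ≤ M i j) :
    ∃ B : Matrix (Fin 2) (Fin 2) ℕ, toZ B = M := by
  refine ⟨M.map Int.toNat, ?_⟩
  ext i j
  simp [toZ, h i j]

/-- the matrix `e + u wᵀ` over `ℤ` -/
def Az (e u1 u2 w1 w2 : ℤ) : Matrix (Fin 2) (Fin 2) ℤ :=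
  !![u1 * w1 + e, u1 * w2; u2 * w1, u2 * w2 + e]

theorem Az_nonneg {e u1 u2 w1 w2 : ℤ} (he : e = 1 ∨ e = -1) (h1 : 1 ≤ u1) (h2 : 1 ≤ u2)
    (h3 : 1 ≤ w1) (h4 : 1 ≤ w2) (i j : Fin 2) : 0 ≤ Az e u1 u2 w1 w2 i j := by
  have k1 : 1 ≤ u1 * w1 := one_le_mul_of_one_le_of_one_le h1 h3
  have k2 : 1 ≤ u2 * w2 := one_le_mul_of_one_le_of_one_le h2 h4
  have k3 : 1 ≤ u1 * w2 := one_le_mul_of_one_le_of_one_le h1 h4
  have k4 : 1 ≤ u2 * w1 := one_le_mul_of_one_le_of_one_le h2 h3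
  rcases he with he | he <;> subst he <;> fin_cases i <;> fin_cases j <;> simp [Az] <;> omega

theorem red_left {e u1 u2 w1 w2 : ℤ} (he : e = 1 ∨ e = -1) (h1 : 1 ≤ u1) (h2 : 1 ≤ u2)
    (h4 : 1 ≤ w2) (h5 : w2 < w1) {A B : Matrix (Fin 2) (Fin 2) ℕ}
    (hA : toZ A = Az e u1 u2 w1 w2) (hB : toZ B = Az e u1 (u1 + u2) (w1 - w2) w2) :
    Elem2 A B := by
  have k1 : 1 ≤ u1 * (w1 - w2) := one_le_mul_of_one_le_of_one_le h1 (by omega)
  have k2 : 1 ≤ u2 * (w1 - w2) := one_le_mul_of_one_le_of_one_le h2 (by omega)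
  have k3 : 1 ≤ u1 * w2 := one_le_mul_of_one_le_of_one_le h1 h4
  have k4 : 1 ≤ u2 * w2 := one_le_mul_of_one_le_of_one_le h2 h4
  refine elem2_of_int !![u1 * (w1 - w2) + e, u1 * w2; u2 * (w1 - w2) - e, u2 * w2 + e]
    !![1, 0; 1, 1] ?_ ?_ (hA.trans ?_) (hB.trans ?_)
  · intro i j
    rcases he with he | he <;> subst he <;> fin_cases i <;> fin_cases j <;> simp <;> omega
  · intro i j
    fin_cases i <;> fin_cases j <;> simp
  · ext i j
    fin_cases i <;> fin_cases j <;> simp [Az, Matrix.mul_apply, Fin.sum_univ_two] <;> ring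
  · ext i j
    fin_cases i <;> fin_cases j <;> simp [Az, Matrix.mul_apply, Fin.sum_univ_two] <;> ring

theorem red_right {e u1 u2 w1 w2 : ℤ} (he : e = 1 ∨ e = -1) (h1 : 1 ≤ u1) (h2 : 1 ≤ u2)
    (h4 : 1 ≤ w1) (h5 : w1 < w2) {A B : Matrix (Fin 2) (Fin 2) ℕ}
    (hA : toZ A = Az e u1 u2 w1 w2) (hB : toZ B = Az e (u1 + u2) u2 w1 (w2 - w1)) :
    Elem2 A B := by
  have k1 : 1 ≤ u1 * (w2 - w1) := one_le_mul_of_one_le_of_one_le h1 (by omega)
  have k2 : 1 ≤ u2 * (w2 - w1) := one_le_mul_of_one_le_of_one_le h2 (by omega)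
  have k3 : 1 ≤ u1 * w1 := one_le_mul_of_one_le_of_one_le h1 h4
  have k4 : 1 ≤ u2 * w1 := one_le_mul_of_one_le_of_one_le h2 h4
  refine elem2_of_int !![u1 * w1 + e, u1 * (w2 - w1) - e; u2 * w1, u2 * (w2 - w1) + e]
    !![1, 1; 0, 1] ?_ ?_ (hA.trans ?_) (hB.trans ?_)
  · intro i j
    rcases he with he | he <;> subst he <;> fin_cases i <;> fin_cases j <;> simp <;> omega
  · intro i j
    fin_cases i <;> fin_cases j <;> simp
  · ext i j
    fin_cases i <;> fin_cases j <;> simp [Az, Matrix.mul_apply, Fin.sum_univ_two] <;> ring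
  · ext i j
    fin_cases i <;> fin_cases j <;> simp [Az, Matrix.mul_apply, Fin.sum_univ_two] <;> ring

/-- the reduction, by the Euclidean algorithm for `w` -/
theorem reduce {e : ℤ} (he : e = 1 ∨ e = -1) (n : ℕ) : ∀ (u1 u2 w1 w2 f x : ℕ), 1 ≤ u1 → 1 ≤ u2 →
    1 ≤ w1 → 1 ≤ w2 → Nat.Coprime w1 w2 → w1 + w2 = n + 2 → f = u1 * w1 + u2 * w2 → 1 ≤ x →
    x < f → (w1 * x : ℤ) ≡ -u2 [ZMOD f] → (w2 * x : ℤ) ≡ u1 [ZMOD f] →
    ∀ A : Matrix (Fin 2) (Fin 2) ℕ, toZ A = Az e u1 u2 w1 w2 →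
      ∃ k ≤ n, Chain2 k A (Bm e f x) := by
  induction n using Nat.strong_induction_on with
  | _ n ih =>
    intro u1 u2 w1 w2 f x hu1 hu2 hw1 hw2 hco hn hf hx hxf e1 e2 A hA
    have hu1' : (1 : ℤ) ≤ u1 := by exact_mod_cast hu1
    have hu2' : (1 : ℤ) ≤ u2 := by exact_mod_cast hu2
    have hw1' : (1 : ℤ) ≤ w1 := by exact_mod_cast hw1
    have hw2' : (1 : ℤ) ≤ w2 := by exact_mod_cast hw2
    rcases lt_trichotomy w1 w2 with hlt | heq | hgt
    · obtain ⟨d, hd⟩ : ∃ d, w2 = w1 + d := ⟨w2 - w1, by omega⟩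
      have hd1 : 1 ≤ d := by omega
      have hd' : (d : ℤ) = w2 - w1 := by rw [hd]; push_cast; ring
      obtain ⟨B, hB⟩ := exists_nat (Az e ((u1 + u2 : ℕ) : ℤ) u2 w1 d)
        (Az_nonneg he (by push_cast; omega) hu2' hw1' (by exact_mod_cast hd1))
      have hB' : toZ B = Az e (u1 + u2) u2 w1 (w2 - w1) := by
        rw [hB, hd']; push_cast; rfl
      have st : Elem2 A B := red_right he hu1' hu2' hw1' (by exact_mod_cast hlt) hA hB'
      obtain ⟨k, hk, hc⟩ := ih (n - w1) (by omega) (u1 + u2) u2 w1 d f x (by omega) hu2 hw1 hd1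
        (by
          rw [hd] at hco
          exact (Nat.coprime_add_self_right (m := w1) (n := d)).mp (by rwa [add_comm] at hco))
        (by omega) (by rw [hf, hd]; ring) hx hxf e1
        (by
          have := e2.sub e1
          push_cast
          rw [hd']
          rwa [show (w2 * x - w1 * x : ℤ) = (w2 - w1) * x by ring, sub_neg_eq_add] at this) B hB
      exact ⟨k + 1, by omega, ⟨B, st, hc⟩⟩
    · have h1 : w1 = 1 := by
        rw [← heq] at hco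
        simpa using hco
      have h2 : w2 = 1 := by omega
      subst h1
      subst h2
      refine ⟨0, by omega, ?_⟩
      have hxu : x = u1 := by
        have h3 : (f : ℤ) ∣ u1 - x := by
          have := e2.dvd
          simpa using this
        have h4 : (u1 : ℤ) - x = 0 := by
          apply Int.eq_zero_of_abs_lt_dvd h3
          rw [abs_lt]
          constructor <;> omega
        omega
      show A = Bm e f x
      apply toZ_inj
      rw [hA, toZ_Bm he hx hxf, hxu, hf]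
      ext i j
      fin_cases i <;> fin_cases j <;> simp [Az, Bz2]
    · obtain ⟨d, hd⟩ : ∃ d, w1 = w2 + d := ⟨w1 - w2, by omega⟩
      have hd1 : 1 ≤ d := by omega
      have hd' : (d : ℤ) = w1 - w2 := by rw [hd]; push_cast; ring
      obtain ⟨B, hB⟩ := exists_nat (Az e u1 ((u1 + u2 : ℕ) : ℤ) d w2)
        (Az_nonneg he hu1' (by push_cast; omega) (by exact_mod_cast hd1) hw2')
      have hB' : toZ B = Az e u1 (u1 + u2) (w1 - w2) w2 := by
        rw [hB, hd']; push_cast; rfl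
      have st : Elem2 A B := red_left he hu1' hu2' hw2' (by exact_mod_cast hgt) hA hB'
      obtain ⟨k, hk, hc⟩ := ih (n - w2) (by omega) u1 (u1 + u2) d w2 f x hu1 (by omega) hd1 hw2
        (by
          rw [hd] at hco
          exact (Nat.coprime_add_self_left (m := d) (n := w2)).mp (by rwa [add_comm] at hco))
        (by omega) (by rw [hf, hd]; ring) hx hxf
        (by
          have := e1.sub e2
          push_cast
          rw [hd']
          rwa [show (w1 * x - w2 * x : ℤ) = (w1 - w2) * x by ring,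
            show (-(u2 : ℤ) - u1) = -(u1 + u2) by ring] at this) e2 B hB
      exact ⟨k + 1, by omega, ⟨B, st, hc⟩⟩

/-- the residue `x` -/
theorem exists_res {u1 u2 w1 w2 f : ℕ} (hu1 : 1 ≤ u1) (hu2 : 1 ≤ u2) (hw1 : 1 ≤ w1) (hw2 : 1 ≤ w2)
    (hco : Nat.Coprime w1 w2) (hf : f = u1 * w1 + u2 * w2) :
    ∃ x : ℕ, 1 ≤ x ∧ x < f ∧ (w1 * x : ℤ) ≡ -u2 [ZMOD f] ∧ (w2 * x : ℤ) ≡ u1 [ZMOD f] := by
  have k1 : 1 ≤ u2 * w2 := Nat.one_le_iff_ne_zero.mpr (by positivity)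
  have k2 : u1 * 1 ≤ u1 * w1 := Nat.mul_le_mul_left _ hw1
  have hf0 : (0 : ℤ) < f := by exact_mod_cast (by omega : 0 < f)
  obtain ⟨m, n, hmn⟩ : IsCoprime (w1 : ℤ) (w2 : ℤ) := Nat.isCoprime_iff_coprime.mpr hco
  have hfz : (f : ℤ) = u1 * w1 + u2 * w2 := by rw [hf]; push_cast; ring
  have h0 : 0 ≤ (n * u1 - m * u2 : ℤ) % f := Int.emod_nonneg _ hf0.ne'
  have h1 : (n * u1 - m * u2 : ℤ) % f < f := Int.emod_lt_of_pos _ hf0
  obtain ⟨x, hx⟩ : ∃ x : ℕ, (x : ℤ) = (n * u1 - m * u2 : ℤ) % f :=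
    ⟨((n * u1 - m * u2 : ℤ) % f).toNat, by omega⟩
  have hm : (x : ℤ) ≡ n * u1 - m * u2 [ZMOD f] := by rw [hx]; exact Int.mod_modEq _ _
  have e1 : (w1 * x : ℤ) ≡ -u2 [ZMOD f] := by
    refine (hm.mul_left w1).trans ?_
    rw [Int.modEq_iff_dvd]
    refine ⟨-n, ?_⟩
    rw [hfz]
    linear_combination (u2 : ℤ) * hmn
  have e2 : (w2 * x : ℤ) ≡ u1 [ZMOD f] := by
    refine (hm.mul_left w2).trans ?_
    rw [Int.modEq_iff_dvd]
    refine ⟨m, ?_⟩
    rw [hfz]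
    linear_combination (-(u1 : ℤ)) * hmn
  refine ⟨x, ?_, by omega, e1, e2⟩
  by_contra hc
  have hx0 : x = 0 := by omega
  rw [hx0] at e2
  have h3 : (f : ℤ) ∣ u1 := by
    have := e2.dvd
    simpa using this
  have := Int.le_of_dvd (by exact_mod_cast hu1) h3
  omega

/-- the factorisation of `A - e` -/
theorem exists_uw {a b c d : ℕ} (ha : 1 ≤ a) (hb : 1 ≤ b) (hc : 1 ≤ c) (hd : 1 ≤ d)
    (h : a * d = b * c) : ∃ u1 u2 w1 w2 : ℕ, 1 ≤ u1 ∧ 1 ≤ u2 ∧ 1 ≤ w1 ∧ 1 ≤ w2 ∧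
      Nat.Coprime w1 w2 ∧ a = u1 * w1 ∧ b = u1 * w2 ∧ c = u2 * w1 ∧ d = u2 * w2 := by
  obtain ⟨w1, hw1⟩ := Nat.gcd_dvd_left a b
  obtain ⟨w2, hw2⟩ := Nat.gcd_dvd_right a b
  have hg : 0 < Nat.gcd a b := Nat.gcd_pos_of_pos_left _ ha
  have hco : Nat.Coprime w1 w2 := by
    have h1 : Nat.gcd (Nat.gcd a b * w1) (Nat.gcd a b * w2) = Nat.gcd a b := by
      rw [← hw1, ← hw2]
    rw [Nat.gcd_mul_left] at h1
    exact Nat.eq_of_mul_eq_mul_left hg (by rw [h1, mul_one])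
  have h2 : w1 * d = w2 * c := by
    apply Nat.eq_of_mul_eq_mul_left hg
    calc Nat.gcd a b * (w1 * d) = (Nat.gcd a b * w1) * d := by ring
      _ = (Nat.gcd a b * w2) * c := by rw [← hw1, ← hw2, h]
      _ = Nat.gcd a b * (w2 * c) := by ring
  have hw1p : 1 ≤ w1 := by
    rcases Nat.eq_zero_or_pos w1 with h0 | h0
    · rw [h0] at hw1; omega
    · exact h0
  have hw2p : 1 ≤ w2 := by
    rcases Nat.eq_zero_or_pos w2 with h0 | h0
    · rw [h0] at hw2; omega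
    · exact h0
  obtain ⟨u2, hu2⟩ : w1 ∣ c := hco.dvd_of_dvd_mul_left ⟨d, h2.symm⟩
  have hd2 : d = u2 * w2 := by
    apply Nat.eq_of_mul_eq_mul_left hw1p
    rw [h2, hu2]; ring
  have hu2p : 1 ≤ u2 := by
    rcases Nat.eq_zero_or_pos u2 with h0 | h0
    · rw [h0] at hd2; omega
    · exact h0
  exact ⟨Nat.gcd a b, u2, w1, w2, hg, hu2p, hw1p, hw2p, hco, hw1, hw2, by rw [hu2]; ring, hd2⟩

end Pool.Agent.R775.SSE.Two
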