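import Pool.Agent.R775.SSE.Rel

/-!
# `2 × 2` matrices over `ℕ` with an eigenvalue `±1`: elementary equivalences
-/

set_option autoImplicit false

namespace Pool.Agent.R775.SSE.Two

open Matrix

/-- Elementary equivalence of `2 × 2` matrices through `2 × 2` matrices. -/
def Elem2 (A B : Matrix (Fin 2) (Fin 2) ℕ) : Prop :=
  ∃ R S : Matrix (Fin 2) (Fin 2) ℕ, A = R * S ∧ B = S * R

/-- A chain of `k` elementary equivalences through `2 × 2` matrices. -/
def Chain2 : ℕ → Matrix (Fin 2) (Fin 2) ℕ → Matrix (Fin 2) (Fin 2) ℕ → Prop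
  | 0, A, B => A = B
  | k + 1, A, B => ∃ C, Elem2 A C ∧ Chain2 k C B

/-- The matrix with rows `(x + e, x)`, `(f - x, f - x + e)` (for `1 ≤ x < f` and `e = ±1`). -/
def Bm (e : ℤ) (f x : ℕ) : Matrix (Fin 2) (Fin 2) ℕ :=
  !![((x : ℤ) + e).toNat, x; f - x, ((f : ℤ) - x + e).toNat]

/-- the same matrix over `ℤ` -/
def Bz2 (e f x : ℤ) : Matrix (Fin 2) (Fin 2) ℤ := !![x + e, x; f - x, f - x + e]

theorem toZ_Bm {e : ℤ} {f x : ℕ} (he : e = 1 ∨ e = -1) (hx : 1 ≤ x) (hxf : x < f) :
    toZ (Bm e f x) = Bz2 e f x := by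
  have h1 : ((((x : ℤ) + e).toNat : ℕ) : ℤ) = x + e := by rcases he with h | h <;> omega
  have h2 : ((((f : ℤ) - x + e).toNat : ℕ) : ℤ) = f - x + e := by rcases he with h | h <;> omega
  ext i j
  fin_cases i <;> fin_cases j <;> simp [toZ, Bm, Bz2] <;> omega

theorem toZ_inj {A B : Matrix (Fin 2) (Fin 2) ℕ} (h : toZ A = toZ B) : A = B := by
  ext i j
  have := congrFun (congrFun h i) j
  simp only [toZ, Matrix.map_apply] at this
  exact_mod_cast this

theorem toZ_mul (A B : Matrix (Fin 2) (Fin 2) ℕ) : toZ (A * B) = toZ A * toZ B := by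
  unfold toZ
  exact Matrix.map_mul (f := Nat.castRingHom ℤ)

/-- elementary equivalences can be checked over `ℤ` -/
theorem elem2_of_int {A B : Matrix (Fin 2) (Fin 2) ℕ} (R S : Matrix (Fin 2) (Fin 2) ℤ)
    (hR : ∀ i j, 0 ≤ R i j) (hS : ∀ i j, 0 ≤ S i j) (h1 : toZ A = R * S) (h2 : toZ B = S * R) :
    Elem2 A B := by
  have hR' : toZ (R.map Int.toNat) = R := by
    ext i j
    simp [toZ, hR i j]
  have hS' : toZ (S.map Int.toNat) = S := by
    ext i j
    simp [toZ, hS i j]
  refine ⟨R.map Int.toNat, S.map Int.toNat, toZ_inj ?_, toZ_inj ?_⟩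
  · rw [toZ_mul, hR', hS', h1]
  · rw [toZ_mul, hR', hS', h2]

theorem Elem2.symm {A B : Matrix (Fin 2) (Fin 2) ℕ} (h : Elem2 A B) : Elem2 B A := by
  obtain ⟨R, S, h1, h2⟩ := h
  exact ⟨S, R, h2, h1⟩

theorem Chain2.trans {k l : ℕ} {A B C : Matrix (Fin 2) (Fin 2) ℕ} (h : Chain2 k A B)
    (h' : Chain2 l B C) : Chain2 (k + l) A C := by
  induction k generalizing A with
  | zero =>
    have e : A = B := h
    rw [Nat.zero_add, e]; exact h'
  | succ k ih =>
    obtain ⟨W, h1, h2⟩ := h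
    rw [Nat.succ_add]
    exact ⟨W, h1, ih h2⟩

theorem Chain2.single {A B : Matrix (Fin 2) (Fin 2) ℕ} (h : Elem2 A B) : Chain2 1 A B :=
  ⟨B, h, rfl⟩

theorem Chain2.symm {k : ℕ} {A B : Matrix (Fin 2) (Fin 2) ℕ} (h : Chain2 k A B) :
    Chain2 k B A := by
  induction k generalizing A with
  | zero =>
    have e : A = B := h
    exact e.symm
  | succ k ih =>
    obtain ⟨W, h1, h2⟩ := h
    exact (ih h2).trans (Chain2.single h1.symm)

theorem Chain2.chain {k : ℕ} {A B : Matrix (Fin 2) (Fin 2) ℕ} (h : Chain2 k A B) :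
    Chain k ⟨2, A⟩ ⟨2, B⟩ := by
  induction k generalizing A with
  | zero =>
    have e : A = B := h
    rw [e]; rfl
  | succ k ih =>
    obtain ⟨W, ⟨R, S, h1, h2⟩, h3⟩ := h
    exact ⟨⟨2, W⟩, ⟨R, S, h1, h2⟩, ih h3⟩

/-- the matrices of a step -/
theorem step_ints {e f x y p s q t : ℤ} (h1 : p * s = f + e) (h2 : p * x = q * f + y)
    (h3 : t = x - s * q) :
    Bz2 e f x = !![q + 1, q; p - q - 1, p - q] * !![t + e, t; s - t - e, s - t] ∧
    Bz2 e f y = !![t + e, t; s - t - e, s - t] * !![q + 1, q; p - q - 1, p - q] := by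
  subst h3
  constructor
  · ext i j
    fin_cases i <;> fin_cases j <;> simp [Bz2, Matrix.mul_apply, Fin.sum_univ_two]
    · ring
    · ring
    · linear_combination -h1
    · linear_combination -h1
  · ext i j
    fin_cases i <;> fin_cases j <;> simp [Bz2, Matrix.mul_apply, Fin.sum_univ_two]
    · linear_combination -h2 + q * h1
    · linear_combination -h2 + q * h1
    · linear_combination h2 - (q + 1) * h1
    · linear_combination h2 - (q + 1) * h1

theorem step_ints' {e f x y p s q t : ℤ} (h1 : p * s = f + e) (h2 : p * x = q * f + y)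
    (h3 : t = x - s * q) :
    Bz2 e f x = !![q, q + 1; p - q, p - q - 1] * !![s - t - e, s - t; t + e, t] ∧
    Bz2 e f (f - y) = !![s - t - e, s - t; t + e, t] * !![q, q + 1; p - q, p - q - 1] := by
  subst h3
  constructor
  · ext i j
    fin_cases i <;> fin_cases j <;> simp [Bz2, Matrix.mul_apply, Fin.sum_univ_two]
    · ring
    · ring
    · linear_combination -h1
    · linear_combination -h1
  · ext i j
    fin_cases i <;> fin_cases j <;> simp [Bz2, Matrix.mul_apply, Fin.sum_univ_two]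
    · linear_combination h2 - (q + 1) * h1
    · linear_combination h2 - (q + 1) * h1
    · linear_combination -h2 + q * h1
    · linear_combination -h2 + q * h1

/-- the signs in a step -/
theorem step_nonneg {e f x y p s q t : ℤ} (he : e = 1 ∨ e = -1) (h1 : p * s = f + e)
    (h2 : p * x = q * f + y) (h3 : t = x - s * q) (hp : 0 < p) (hq : 0 ≤ q) (hqp : q < p)
    (hy : 0 < y) (hyf : y < f) : 0 ≤ t ∧ 0 ≤ t + e ∧ 0 ≤ s - t - e ∧ 0 ≤ s - t := by
  have k1 : p * t = y - q * e := by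
    rw [h3]; linear_combination h2 - q * h1
  have k2 : p * (s - t - e) = (f - y) - e * (p - q - 1) := by
    linear_combination h1 - k1
  rcases he with he | he
  · subst he
    have m1 : 0 ≤ t := by
      by_contra hc
      have : t ≤ -1 := by omega
      nlinarith
    have m2 : 0 ≤ s - t - 1 := by
      by_contra hc
      have : s - t - 1 ≤ -1 := by omega
      nlinarith
    refine ⟨m1, by omega, m2, by omega⟩
  · subst he
    have m1 : 1 ≤ t := by
      by_contra hc
      have : t ≤ 0 := by omega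
      nlinarith
    have m2 : 1 ≤ s - t - -1 := by
      by_contra hc
      have : s - t - -1 ≤ 0 := by omega
      nlinarith
    refine ⟨by omega, by omega, by omega, by omega⟩

/-- the elementary equivalences between the matrices `Bm` -/
theorem step {e : ℤ} {f x y p : ℕ} (he : e = 1 ∨ e = -1) (hx : 1 ≤ x) (hxf : x < f) (hy : 1 ≤ y)
    (hyf : y < f) (hp : (p : ℤ) ∣ f + e)
    (h : (p * x : ℤ) ≡ y [ZMOD f] ∨ (p * x : ℤ) ≡ -y [ZMOD f]) :
    Elem2 (Bm e f x) (Bm e f y) := by
  have hf : 0 < (f : ℤ) := by exact_mod_cast (by omega : 0 < f)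
  have hfe : (0 : ℤ) < f + e := by rcases he with he | he <;> omega
  obtain ⟨s, hs⟩ := hp
  have hp0 : 0 < (p : ℤ) := by
    rcases Nat.eq_zero_or_pos p with h0 | h0
    · subst h0; simp at hs; omega
    · exact_mod_cast h0
  have key : ∀ y' : ℤ, 0 < y' → y' < f → (p * x : ℤ) ≡ y' [ZMOD f] →
      ∃ q : ℤ, (p * x : ℤ) = q * f + y' ∧ 0 ≤ q ∧ q < p := by
    intro y' h1 h2 h3
    rw [Int.modEq_iff_dvd] at h3
    obtain ⟨c, hc⟩ := h3
    refine ⟨-c, by linarith, ?_, ?_⟩
    · by_contra hc'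
      have h4 : 1 ≤ c := by omega
      have h5 : (0 : ℤ) < p * x := mul_pos hp0 (by exact_mod_cast hx)
      nlinarith
    · by_contra hc'
      have h4 : c ≤ -p := by omega
      have h5 : (p * x : ℤ) < p * f := by
        apply mul_lt_mul_of_pos_left _ hp0
        exact_mod_cast hxf
      nlinarith
  rcases h with h | h
  · obtain ⟨q, h2, h3, h4⟩ := key y (by exact_mod_cast hy) (by exact_mod_cast hyf) h
    obtain ⟨e1, e2⟩ := step_ints (t := x - s * q) hs.symm h2 rfl
    obtain ⟨n1, n2, n3, n4⟩ := step_nonneg he hs.symm h2 rfl hp0 h3 h4 (by exact_mod_cast hy)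
      (by exact_mod_cast hyf)
    refine elem2_of_int _ _ ?_ ?_ ((toZ_Bm he hx hxf).trans e1) ((toZ_Bm he hy hyf).trans e2)
    · intro i j
      fin_cases i <;> fin_cases j <;> simp <;> omega
    · intro i j
      fin_cases i <;> fin_cases j <;> simp <;> omega
  · have h' : (p * x : ℤ) ≡ f - y [ZMOD f] := by
      refine h.trans ?_
      rw [Int.modEq_iff_dvd]
      exact ⟨1, by ring⟩
    have hy1 : (0 : ℤ) < f - y := by omega
    have hy2 : (f : ℤ) - y < f := by omega
    obtain ⟨q, h2, h3, h4⟩ := key (f - y) hy1 hy2 h'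
    obtain ⟨e1, e2⟩ := step_ints' (t := x - s * q) hs.symm h2 rfl
    obtain ⟨n1, n2, n3, n4⟩ := step_nonneg he hs.symm h2 rfl hp0 h3 h4 hy1 hy2
    rw [show (f : ℤ) - (f - y) = y by ring] at e2
    refine elem2_of_int _ _ ?_ ?_ ((toZ_Bm he hx hxf).trans e1) ((toZ_Bm he hy hyf).trans e2)
    · intro i j
      fin_cases i <;> fin_cases j <;> simp <;> omega
    · intro i j
      fin_cases i <;> fin_cases j <;> simp <;> omega

theorem dvd_split {s m l : ℕ} (hm : 0 < m) (h : s ∣ m ^ (l + 1)) :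
    ∃ p t, s = p * t ∧ p ∣ m ∧ t ∣ m ^ l := by
  have hg : 0 < Nat.gcd s m := Nat.gcd_pos_of_pos_right _ hm
  obtain ⟨t, ht⟩ := Nat.gcd_dvd_left s m
  refine ⟨Nat.gcd s m, t, ht, Nat.gcd_dvd_right s m, ?_⟩
  obtain ⟨n, hn⟩ := Nat.gcd_dvd_right s m
  have hco : Nat.Coprime t n := by
    have h1 : Nat.gcd (Nat.gcd s m * t) (Nat.gcd s m * n) = Nat.gcd s m := by
      rw [← ht, ← hn]
    rw [Nat.gcd_mul_left] at h1
    exact Nat.eq_of_mul_eq_mul_left hg (by rw [h1, mul_one])
  have h2 : Nat.gcd s m * t ∣ Nat.gcd s m * (n * m ^ l) := by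
    rw [← ht, ← mul_assoc, ← hn, ← pow_succ']
    exact h
  have h3 : t ∣ n * m ^ l := Nat.dvd_of_mul_dvd_mul_left hg h2
  exact hco.dvd_of_dvd_mul_left h3

/-- the chains between the matrices `Bm` -/
theorem chain_of_mod {e : ℤ} {f : ℕ} (he : e = 1 ∨ e = -1) (l : ℕ) :
    ∀ x y s : ℕ, 1 ≤ x → x < f → 1 ≤ y → y < f → (s : ℤ) ∣ ((f : ℤ) + e) ^ (l + 1) →
      ((s * x : ℤ) ≡ y [ZMOD f] ∨ (s * x : ℤ) ≡ -y [ZMOD f]) →
      Chain2 (l + 1) (Bm e f x) (Bm e f y) := by
  induction l with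
  | zero =>
    intro x y s hx hxf hy hyf hs h
    exact Chain2.single (step he hx hxf hy hyf (by simpa using hs) h)
  | succ l ih =>
    intro x y s hx hxf hy hyf hs h
    have hf : 0 < (f : ℤ) := by exact_mod_cast (by omega : 0 < f)
    obtain ⟨m, hm⟩ : ∃ m : ℕ, (m : ℤ) = f + e :=
      ⟨((f : ℤ) + e).toNat, by rcases he with he | he <;> omega⟩
    have hm0 : 0 < m := by
      have : (0 : ℤ) < m := by rw [hm]; rcases he with he | he <;> omega
      exact_mod_cast this
    rw [← hm] at hs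
    have hs' : s ∣ m ^ (l + 1 + 1) := by exact_mod_cast hs
    obtain ⟨p, t, hst, hp, ht⟩ := dvd_split hm0 hs'
    -- the intermediate matrix
    have hz0 : 0 ≤ (p * x : ℤ) % f := Int.emod_nonneg _ hf.ne'
    have hz1 : (p * x : ℤ) % f < f := Int.emod_lt_of_pos _ hf
    obtain ⟨z, hz⟩ : ∃ z : ℕ, (z : ℤ) = (p * x : ℤ) % f := ⟨((p * x : ℤ) % f).toNat, by omega⟩
    have hmod : (p * x : ℤ) ≡ z [ZMOD f] := by
      rw [hz]; exact (Int.mod_modEq _ _).symm
    have hzne : z ≠ 0 := by
      intro h0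
      rw [h0] at hmod
      have hd : (f : ℤ) ∣ p * x := by
        have := hmod.dvd
        simpa using this
      have hco : IsCoprime (f : ℤ) (p : ℤ) := by
        obtain ⟨c, hc⟩ := hp
        have hc' : (p : ℤ) * c = f + e := by rw [← hm, hc]; push_cast; ring
        rcases he with he | he
        · exact ⟨-1, c, by rw [he] at hc'; linarith⟩
        · exact ⟨1, -c, by rw [he] at hc'; linarith⟩
      have hd' : (f : ℤ) ∣ x := hco.dvd_of_dvd_mul_left hd
      have := Int.le_of_dvd (by exact_mod_cast hx) hd'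
      omega
    have st : Elem2 (Bm e f x) (Bm e f z) :=
      step he hx hxf (by omega) (by omega) (by rw [← hm]; exact_mod_cast hp) (Or.inl hmod)
    refine ⟨_, st, ih z y t (by omega) (by omega) hy hyf (by rw [← hm]; exact_mod_cast ht) ?_⟩
    have h1 : (s * x : ℤ) ≡ t * z [ZMOD f] := by
      have := hmod.mul_left (t : ℤ)
      rw [hst]
      push_cast
      rwa [show (t : ℤ) * (p * x) = p * t * x by ring] at this
    rcases h with h | h
    · left; exact h1.symm.trans h
    · right; exact h1.symm.trans h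

end Pool.Agent.R775.SSE.Two
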